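import Mathlib
import Pool.Agent.H82.RFV.G3

/-!
# The Galois group of a geometric generic point of a smooth scheme of relative dimension zero

For `X` smooth of relative dimension `0` over a field `k` and a point `z` of `X` over a
separable closure `kbar` of `k`, lying over a geometric generic point of `X`, the group
`Aut(Ω/κ(z))` is trivial.
-/

noncomputable section

open CategoryTheory Limits AlgebraicGeometry Pool.Agent.H27.RFM

namespace Pool.Agent.H24.PT

lemma surjective_of_sepVia {K Ω : Type} [Field K] [Field Ω] [IsSepClosed K] (e : K →+* Ω)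
    (h : SepVia e) : Function.Surjective e := by
  let _ := e.toAlgebra
  have h' : IsSepClosure K Ω := h
  have h1 := h'.separable
  exact IsSepClosed.algebraMap_surjective K Ω

theorem galAt_trivial {k : Type} [Field k] (kbar : Type) [Field kbar] [Algebra k kbar]
    [IsSepClosure k kbar] {X : Scheme.{0}} (f : X ⟶ Spec (CommRingCat.of k))
    [SmoothOfRelativeDimension 0 f] (Ω : Type) [Field Ω]
    (z : Spec (CommRingCat.of Ω) ⟶ baseChange f kbar)
    (hz : IsGeometricGenericPoint (z ≫ toX f kbar)) :
    ∀ σ : Ω ≃+* Ω, σ ∈ galAt z → σ = 1 := by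
  have : Etale f := (Etale.iff_smoothOfRelativeDimension_zero f).2 inferInstance
  have hsc : IsSepClosed kbar := IsSepClosure.sep_closed k
  have h1 : SepVia (resMap (z ≫ toX f kbar)) := hz.isSepClosure
  have h2 : SepVia (resMap ((z ≫ toX f kbar) ≫ f)) := h1.resMap_comp f
  obtain ⟨e', he'⟩ := Spec.map_surjective
    (z ≫ pullback.snd f (Spec.map (CommRingCat.ofHom (algebraMap k kbar))))
  let e : kbar →+* Ω := e'.hom
  have he : Spec.map (CommRingCat.ofHom e) =
      z ≫ pullback.snd f (Spec.map (CommRingCat.ofHom (algebraMap k kbar))) := he'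
  have h3 : (z ≫ toX f kbar) ≫ f = Spec.map (CommRingCat.ofHom (e.comp (algebraMap k kbar))) := by
    rw [CommRingCat.ofHom_comp, Spec.map_comp, he, Category.assoc, Category.assoc,
      pullback.condition]
  rw [h3] at h2
  have h4 : SepVia (e.comp (algebraMap k kbar)) := Pool.Agent.H82.LV.SepVia.of_spec _ h2
  have h5 : SepVia e := SepVia.of_comp (K := k) (i := algebraMap k kbar) h4
  have h6 : Function.Surjective e := surjective_of_sepVia e h5
  intro σ hσ
  have h7 := galAt_le_comp z
    (pullback.snd f (Spec.map (CommRingCat.ofHom (algebraMap k kbar)))) hσ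
  rw [← he, mem_galAt_SpecMap] at h7
  ext a
  obtain ⟨b, rfl⟩ := h6 a
  exact h7 b

end Pool.Agent.H24.PT
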